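import Pool.Agent.H525.ISO.Stm
import Pool.Graph.R_pool_sql_team_seeded_b0a926ef.R529.FT.Page

set_option autoImplicit false

/-! # Primes in classes to smooth moduli (helper216 for helper525) -/

namespace Pool.Agent.H525.ISO

open Finset NumberField Filter

open scoped Classical

namespace PAGE

theorem PM_pos (q y p₀ : ℕ) : 0 < PM q y p₀ := prod_pos fun _ hp => (mem_filter.1 hp).2.1.pos

theorem PM_le (q y p₀ : ℕ) : PM q y p₀ ≤ 4 ^ y := by
  refine le_trans ?_ (primorial_le_four_pow y)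
  unfold PM primorial
  refine Finset.prod_le_prod_of_subset_of_one_le' (fun p hp => ?_) fun p hp _ => ?_
  · rw [mem_filter, mem_Icc] at hp
    rw [mem_filter, mem_range]
    exact ⟨by omega, hp.2.1⟩
  · exact (mem_filter.1 hp).2.one_lt.le

theorem PM_not_dvd {q y p₀ : ℕ} (hp₀ : p₀.Prime) : ¬ p₀ ∣ PM q y p₀ := by
  intro h
  obtain ⟨p, hp, hd⟩ := (Nat.Prime.prime hp₀).exists_mem_finset_dvd h
  rw [mem_filter] at hp
  rw [Nat.prime_dvd_prime_iff_eq hp₀ hp.2.1] at hd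
  exact hp.2.2.2 hd.symm

/-- a prime which keeps `q₁` from dividing `q * PM q y p₀` -/
theorem exists_leave {q q₁ : ℕ} (hq : 0 < q) (hq₁ : q < q₁) :
    ∃ p₀ : ℕ, p₀.Prime ∧ ∀ y, ¬ q₁ ∣ q * PM q y p₀ := by
  have h1 : ¬ q₁ ∣ q := fun h => absurd (Nat.le_of_dvd hq h) (not_le.2 hq₁)
  have h2 : ∃ p, q.factorization p < q₁.factorization p := by
    by_contra hcon
    push Not at hcon
    exact h1 ((Nat.factorization_le_iff_dvd (by omega) hq.ne').1 hcon)
  obtain ⟨p, hp⟩ := h2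
  have hpp : p.Prime := by
    by_contra hnp
    rw [Nat.factorization_eq_zero_of_not_prime q₁ hnp] at hp
    exact absurd hp (Nat.not_lt_zero _)
  refine ⟨p, hpp, fun y hd => ?_⟩
  have h3 := (Nat.factorization_le_iff_dvd (by omega)
    (Nat.mul_pos hq (PM_pos q y p)).ne').2 hd p
  rw [Nat.factorization_mul hq.ne' (PM_pos q y p).ne', Finsupp.add_apply,
    Nat.factorization_eq_zero_of_not_dvd (PM_not_dvd hpp), add_zero] at h3
  omega

end PAGE

open PAGE

theorem t_PAGE : S_PAGE := by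
  intro q hq
  obtain ⟨K, c₁, hK, hc₁, z0, hz0⟩ := Pool.Agent.R529.FT.page 1
  have hKR : (1:ℝ) ≤ K := by exact_mod_cast hK
  have hK0 : (0:ℝ) < K := by linarith
  refine ⟨1 / (64 * K), by positivity, ?_⟩
  -- the auxiliary variable
  set T : ℝ := 2 + z0 + Real.exp q + 2 * (q:ℝ) ^ 16 + 2 * (q:ℝ) ^ 16 / c₁ with hT
  have htend : Tendsto (fun X : ℝ => X ^ (1 / (4 * (K:ℝ)))) atTop atTop :=
    tendsto_rpow_atTop (by positivity)
  filter_upwards [htend.eventually_ge_atTop T, eventually_gt_atTop 0] with X hX hX0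
  set t : ℝ := X ^ (1 / (4 * (K:ℝ))) with ht
  have hq0 : (0:ℝ) < (q:ℝ) := by exact_mod_cast hq
  have hq16 : (1:ℝ) ≤ (q:ℝ) ^ 16 := one_le_pow₀ (by exact_mod_cast hq)
  have hdiv : 0 ≤ 2 * (q:ℝ) ^ 16 / c₁ := by positivity
  have hexp : 0 < Real.exp q := Real.exp_pos _
  have hz0R : (0:ℝ) ≤ z0 := Nat.cast_nonneg _
  have ht2 : 2 ≤ t := by linarith
  have htz : (z0:ℝ) ≤ t := by linarith
  have hte : Real.exp q < t := by linarith
  have htq : 2 * (q:ℝ) ^ 16 ≤ t := by linarith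
  have htc : 2 * (q:ℝ) ^ 16 / c₁ ≤ t := by linarith
  have ht0 : 0 < t := by linarith
  have hlogt : 0 < Real.log t := Real.log_pos (by linarith)
  have hXt : t ^ (4 * K) = X := by
    rw [ht, ← Real.rpow_natCast, ← Real.rpow_mul hX0.le]
    have : 1 / (4 * (K:ℝ)) * ((4 * K : ℕ) : ℝ) = 1 := by
      push_cast
      field_simp
    rw [this, Real.rpow_one]
  have hlogX : Real.log X = 4 * K * Real.log t := by
    rw [← hXt, Real.log_pow]
    push_cast
    ring
  have hXc : X ^ (1 / (64 * (K:ℝ))) ≤ t := by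
    rw [Real.rpow_def_of_pos hX0, hlogX]
    have : 4 * K * Real.log t * (1 / (64 * K)) = Real.log t / 16 := by
      field_simp
      ring
    rw [this]
    calc Real.exp (Real.log t / 16) ≤ Real.exp (Real.log t) := Real.exp_le_exp.2 (by linarith)
      _ = t := Real.exp_log ht0
  -- the parameter z
  set z : ℕ := ⌊t ^ 4⌋₊ with hz
  have hz1 : (z:ℝ) ≤ t ^ 4 := Nat.floor_le (by positivity)
  have hz2 : t ^ 4 / 2 ≤ z := by
    have h1 := Nat.lt_floor_add_one (t ^ 4)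
    have h2 : (16:ℝ) ≤ t ^ 4 := by
      have : (2:ℝ) ^ 4 ≤ t ^ 4 := by gcongr
      linarith
    rw [← hz] at h1
    linarith
  have h3 : t ≤ t ^ 4 / 2 := by
    have h4 : (2:ℝ) ^ 3 ≤ t ^ 3 := by gcongr
    have : t ^ 4 = t ^ 3 * t := by ring
    rw [this]
    nlinarith
  have hzt : t ≤ z := h3.trans hz2
  have hzR : (0:ℝ) < z := by linarith
  have hzz0 : z0 ≤ z := by exact_mod_cast htz.trans hzt
  obtain ⟨q₁, hq₁2, hq₁, hpage⟩ := hz0 z hzz0
  have hqq₁ : q < q₁ := by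
    have h4 : (q:ℝ) < Real.log z := by
      rw [Real.lt_log_iff_exp_lt hzR]
      exact lt_of_lt_of_le hte hzt
    rw [pow_one] at hq₁
    exact_mod_cast h4.trans hq₁
  obtain ⟨p₀, hp₀, hnd⟩ := exists_leave hq hqq₁
  refine ⟨p₀, hp₀, fun y hy b hb => ?_⟩
  set m : ℕ := q * PM q y p₀ with hm
  have hm0 : 0 < m := Nat.mul_pos hq (PM_pos q y p₀)
  have hy' : 16 * (y:ℝ) ≤ Real.log t := by
    rw [hlogX] at hy
    have : 1 / (64 * (K:ℝ)) * (4 * K * Real.log t) = Real.log t / 16 := by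
      field_simp
      ring
    rw [this] at hy
    linarith
  have h4y : ((4:ℝ) ^ y) ^ 16 ≤ t ^ 2 := by
    have h1 : ((4:ℝ) ^ y) ^ 16 = Real.exp (16 * y * Real.log 4) := by
      rw [← pow_mul, ← Real.rpow_natCast, Real.rpow_def_of_pos (by norm_num)]
      congr 1
      push_cast
      ring
    have h2 : Real.log 4 ≤ 2 := by
      have : (4:ℝ) = 2 ^ 2 := by norm_num
      rw [this, Real.log_pow]
      have := Real.log_two_lt_d9
      push_cast
      linarith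
    have h5 : (0:ℝ) ≤ Real.log 4 := Real.log_nonneg (by norm_num)
    rw [h1]
    calc Real.exp (16 * y * Real.log 4) ≤ Real.exp (Real.log t * 2) := by
          apply Real.exp_le_exp.2
          exact mul_le_mul hy' h2 h5 hlogt.le
      _ = t ^ 2 := by
          rw [mul_comm, show (2:ℝ) * Real.log t = Real.log (t ^ 2) by
            rw [Real.log_pow]; push_cast; ring]
          exact Real.exp_log (by positivity)
  have hm16R : (m:ℝ) ^ 16 ≤ (q:ℝ) ^ 16 * t ^ 2 := by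
    have h1 : (m:ℝ) ≤ q * 4 ^ y := by
      rw [hm]
      push_cast
      have : (PM q y p₀ : ℝ) ≤ 4 ^ y := by exact_mod_cast PM_le q y p₀
      gcongr
    calc (m:ℝ) ^ 16 ≤ (q * 4 ^ y) ^ 16 := by gcongr
      _ = (q:ℝ) ^ 16 * ((4:ℝ) ^ y) ^ 16 := by rw [mul_pow]
      _ ≤ _ := by gcongr
  have hm16 : m ^ 16 ≤ z := by
    have h1 : (q:ℝ) ^ 16 * t ^ 2 ≤ t ^ 4 / 2 := by
      have h2 : 2 * (q:ℝ) ^ 16 ≤ t ^ 2 := by nlinarith
      have h5 : t ^ 4 = t ^ 2 * t ^ 2 := by ring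
      rw [h5]
      nlinarith [sq_nonneg t]
    have h2 : (m:ℝ) ^ 16 ≤ z := hm16R.trans (h1.trans hz2)
    exact_mod_cast h2
  have hsum := hpage m b hm0 hm16 (hnd y) hb
  -- counting
  set A := (Ioc z (z ^ K)).filter (fun p => p.Prime ∧ p ≡ b [MOD m]) with hA
  have hAcard : ∑ p ∈ A, (1:ℝ) / p ≤ A.card * (1 / z) := by
    rw [← nsmul_eq_mul]
    refine sum_le_card_nsmul _ _ _ fun p hp => ?_
    have h5 : z < p := (mem_Ioc.1 (mem_filter.1 hp).1).1
    exact one_div_le_one_div_of_le hzR (by exact_mod_cast h5.le)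
  have hAsub : A ⊆ (Finset.Icc 1 ⌊X⌋₊).filter (fun p : ℕ => p.Prime ∧ X ^ (1 / (64 * (K:ℝ))) ≤ (p : ℝ) ∧
      p ≡ b [MOD m]) := by
    intro p hp
    rw [hA, mem_filter, mem_Ioc] at hp
    obtain ⟨⟨h5, h6⟩, h7, h8⟩ := hp
    rw [mem_filter, mem_Icc]
    refine ⟨⟨h7.one_lt.le, ?_⟩, h7, ?_, h8⟩
    · apply Nat.le_floor
      have h9 : (p:ℝ) ≤ (z:ℝ) ^ K := by exact_mod_cast h6
      refine h9.trans ?_
      rw [← hXt, pow_mul]
      gcongr
    · refine hXc.trans (hzt.trans ?_)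
      exact_mod_cast h5.le
  have hfin : t ≤ (A.card : ℝ) := by
    have hφ : (m.totient : ℝ) ≤ m := by exact_mod_cast Nat.totient_le m
    have hφ0 : (0:ℝ) < m.totient := by exact_mod_cast Nat.totient_pos.2 hm0
    have hmR : (1:ℝ) ≤ m := by exact_mod_cast hm0
    have h5 : c₁ / (m:ℝ) ≤ A.card * (1 / z) :=
      (div_le_div_of_nonneg_left hc₁.le hφ0 hφ).trans (hsum.trans hAcard)
    have h6 : (m:ℝ) ≤ (q:ℝ) ^ 16 * t ^ 2 := by
      refine le_trans ?_ hm16R
      calc (m:ℝ) = m ^ 1 := (pow_one _).symm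
        _ ≤ m ^ 16 := pow_le_pow_right₀ hmR (by norm_num)
    have h7 : c₁ / (m:ℝ) * z ≤ A.card := by
      have := mul_le_mul_of_nonneg_right h5 hzR.le
      rwa [mul_assoc, one_div_mul_cancel hzR.ne', mul_one] at this
    refine le_trans ?_ h7
    have h8 : t * (q:ℝ) ^ 16 * 2 ≤ c₁ * t ^ 2 := by
      rw [div_le_iff₀ hc₁] at htc
      nlinarith
    rw [div_mul_eq_mul_div, le_div_iff₀ (by linarith)]
    calc t * (m:ℝ) ≤ t * ((q:ℝ) ^ 16 * t ^ 2) := by gcongr
      _ = (t * (q:ℝ) ^ 16 * 2) * (t ^ 2 / 2) := by ring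
      _ ≤ (c₁ * t ^ 2) * (t ^ 2 / 2) := by gcongr
      _ = c₁ * (t ^ 4 / 2) := by ring
      _ ≤ c₁ * z := by gcongr
  refine (hXc.trans hfin).trans ?_
  exact_mod_cast card_le_card hAsub

end Pool.Agent.H525.ISO
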